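import Mathlib
import Pool.Agent.W844.GP.Defs

/-!
# Project GP (helper844): the cost of the blocks satisfies the law of large numbers

`S_TAIL → S_SUM → S_MEAS → S_WW`.
-/

set_option autoImplicit false

open Finset MeasureTheory ProbabilityTheory Filter Topology
open scoped ENNReal

namespace Pool.Agent.W557.GP

open Pool.Agent.W844.VG (V stp nm)
open Pool.Agent.W844.GP

variable {d : ℕ}

lemma nm_le {x : V d} {n : ℕ} : nm x ≤ n ↔ ∀ j, (x j).natAbs ≤ n := by
  simp [nm, Finset.sup_le_iff]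

lemma nm_tri (x y z : V d) : nm (z - x) ≤ nm (z - y) + nm (y - x) := by
  rw [nm_le]
  intro j
  have h1 := (nm_le (x := z - y) (n := nm (z - y))).1 le_rfl j
  have h2 := (nm_le (x := y - x) (n := nm (y - x))).1 le_rfl j
  simp only [Pi.sub_apply] at *
  omega

lemma far_mono {K : ℝ} {w : V d → ℝ} {x : V d} {k k' : ℕ} (h : k ≤ k') :
    Far K w x k' → Far K w x k := by
  rintro ⟨y, hy, hk⟩
  exact ⟨y, hy, h.trans hk⟩

lemma far_imp {K : ℝ} {w w' : V d → ℝ} {x : V d} {k : ℕ}
    (hw : ∀ z ∈ {z : V d | nm (z - x) ≤ k + 1}, w z = w' z) : Far K w x k → Far K w' x k := by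
  rintro ⟨y, ⟨x', hx', hy⟩, hk⟩
  rw [Set.mem_singleton_iff] at hx'
  subst hx'
  have key : Far K w' x' k ∨
      (Relation.ReflTransGen (fun a b => b ∈ Cl K w' ∧ nm (b - a) ≤ 2) x' y ∧ nm (y - x') < k) := by
    clear hk
    induction hy with
    | refl =>
      rcases Nat.eq_zero_or_pos k with h0 | h0
      · left
        exact ⟨x', ⟨x', rfl, Relation.ReflTransGen.refl⟩, by simp [h0]⟩
      · right
        refine ⟨Relation.ReflTransGen.refl, ?_⟩
        have : nm (x' - x') ≤ 0 := by
          rw [nm_le]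
          intro j
          simp
        omega
    | tail h1 h2 ih =>
      rename_i b c
      rcases ih with ih | ⟨ih1, ih2⟩
      · exact Or.inl ih
      · have h3 : nm (c - x') ≤ k + 1 := by
          have := nm_tri x' b c
          have := h2.2
          omega
        have h4 : c ∈ Cl K w' := by
          have h5 := h2.1
          simp only [Cl, Set.mem_ofPred_eq] at h5 ⊢
          rw [← hw c h3]
          exact h5
        have h6 := Relation.ReflTransGen.tail ih1 ⟨h4, h2.2⟩
        by_cases h7 : nm (c - x') < k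
        · exact Or.inr ⟨h6, h7⟩
        · exact Or.inl ⟨c, ⟨x', rfl, h6⟩, not_lt.1 h7⟩
  rcases key with key | key
  · exact key
  · omega

lemma far_dep (K : ℝ) (x : V d) (k : ℕ) :
    DependsOn (fun w => Far K w x k) {z : V d | nm (z - x) ≤ k + 1} := by
  intro w w' hw
  apply propext
  exact ⟨far_imp hw, far_imp fun z hz => (hw z hz).symm⟩

/-! ### facts on `YY` and `VV` -/

lemma yy_imp {w w' : V d → ℝ} {i : Fin d} {L h : ℕ} {c : ℝ}
    (hw : ∀ z ∈ {z : V d | 0 < z i ∧ z i ≤ h}, w z = w' z) : YY w i L h c → YY w' i L h c := by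
  rintro ⟨l, h1, h2, h3⟩
  refine ⟨l, h1, h2, ?_⟩
  have : wt w' l = wt w l := by
    unfold wt
    congr 1
    apply List.map_congr_left
    intro z hz
    have := h1.2.2 z hz
    simp only [Pi.zero_apply, pt, Pi.single_eq_same] at this
    exact (hw z this).symm
  rw [this]
  exact h3

lemma yy_dep (i : Fin d) (L h : ℕ) (c : ℝ) :
    DependsOn (fun w => YY w i L h c) {z : V d | 0 < z i ∧ z i ≤ h} := by
  intro w w' hw
  apply propext
  exact ⟨yy_imp hw, yy_imp fun z hz => (hw z hz).symm⟩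

lemma vv_dep (i : Fin d) (L : ℕ) (B : ℝ) (h : ℕ) :
    DependsOn (VV i L B h) {z : V d | 0 < z i ∧ z i ≤ h} := by
  intro w w' hw
  have : ∀ c, YY w i L h c = YY w' i L h c := fun c => yy_dep i L h c hw
  unfold VV
  simp only [this]

lemma vv_bdd {i : Fin d} {L : ℕ} {B : ℝ} {h : ℕ} {w : V d → ℝ} :
    BddAbove {c : ℝ | c ≤ 0 ∧ (c ≤ -(B * h) ∨ YY w i L h c)} := ⟨0, fun _ hc => hc.1⟩

lemma vv_mem {i : Fin d} {L : ℕ} {B : ℝ} {h : ℕ} {w : V d → ℝ} (hB : 0 ≤ B) :
    -(B * h) ∈ {c : ℝ | c ≤ 0 ∧ (c ≤ -(B * h) ∨ YY w i L h c)} := by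
  refine ⟨?_, Or.inl le_rfl⟩
  have : 0 ≤ B * h := by positivity
  linarith

lemma vv_le {i : Fin d} {L : ℕ} {B : ℝ} {h : ℕ} {w : V d → ℝ} (hB : 0 ≤ B) :
    VV i L B h w ≤ 0 := csSup_le ⟨_, vv_mem hB⟩ fun _ hc => hc.1

lemma vv_ge {i : Fin d} {L : ℕ} {B : ℝ} {h : ℕ} {w : V d → ℝ} (hB : 0 ≤ B) :
    -(B * h) ≤ VV i L B h w := le_csSup vv_bdd (vv_mem hB)

/-! ### truncated cluster sizes -/

open scoped Classical in
/-- truncated version of `GG` -/
noncomputable def GT (r p : ℕ) (K : ℝ) (w : V d → ℝ) (x : V d) : ℝ≥0∞ :=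
  ∑ k ∈ range r, if Far K w x k then ((2 * k + 7) ^ p : ℝ≥0∞) else 0

lemma gt_le (r p : ℕ) (K : ℝ) (w : V d → ℝ) (x : V d) : GT r p K w x ≤ GG p K w x :=
  ENNReal.sum_le_tsum _

lemma gt_eq {r p : ℕ} {K : ℝ} {w : V d → ℝ} {x : V d} (h : ¬ Far K w x r) :
    GG p K w x = GT r p K w x := by
  unfold GG GT
  apply tsum_eq_sum
  intro k hk
  rw [if_neg]
  intro h2
  exact h (far_mono (by simpa using hk) h2)

lemma gt_meas (hF : ∀ (K : ℝ) (x : V d) (k : ℕ), MeasurableSet {w : V d → ℝ | Far K w x k})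
    (r p : ℕ) (K : ℝ) (x : V d) : Measurable fun w : V d → ℝ => GT r p K w x := by
  unfold GT
  refine Finset.measurable_sum _ fun k _ => ?_
  exact Measurable.ite (hF K x k) measurable_const measurable_const

/-- the constant of the moment bounds -/
noncomputable def SS (d : ℕ) : ℝ≥0∞ :=
  ∑' k : ℕ, ((2 * k + 7) ^ d : ℝ≥0∞) * ENNReal.ofReal (Real.exp (-(2 * k)))

lemma SS_ne_top (d : ℕ) : SS d ≠ ⊤ := by
  have h1 : Summable fun k : ℕ => ((k : ℝ)) ^ d * Real.exp (-1 * k) :=
    Real.summable_pow_mul_exp_neg_nat_mul d one_pos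
  have h2 := (summable_nat_add_iff 1).2 h1
  have h3 : Summable fun k : ℕ => ((2 * k + 7 : ℝ)) ^ d * Real.exp (-(2 * k)) := by
    refine Summable.of_nonneg_of_le (fun k => by positivity) (fun k => ?_)
      (h2.mul_left (7 ^ d * Real.exp 1))
    have h4 : ((2 * k + 7 : ℝ)) ^ d ≤ 7 ^ d * ((k + 1 : ℕ) : ℝ) ^ d := by
      rw [← mul_pow]
      apply pow_le_pow_left₀ (by positivity)
      push_cast
      have : (0 : ℝ) ≤ k := by positivity
      linarith
    have h5 : Real.exp (-(2 * k)) ≤ Real.exp 1 * Real.exp (-1 * ((k + 1 : ℕ) : ℝ)) := by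
      rw [← Real.exp_add]
      apply Real.exp_le_exp.2
      push_cast
      have : (0 : ℝ) ≤ k := by positivity
      linarith
    calc _ ≤ (7 ^ d * ((k + 1 : ℕ) : ℝ) ^ d) *
          (Real.exp 1 * Real.exp (-1 * ((k + 1 : ℕ) : ℝ))) := by gcongr
      _ = _ := by ring
  have h6 := h3.tsum_ofReal_ne_top
  convert h6 using 1
  unfold SS
  congr 1
  ext k
  rw [ENNReal.ofReal_mul (by positivity), ENNReal.ofReal_pow (by positivity)]
  congr 2
  rw [ENNReal.ofReal_add (by positivity) (by positivity), ENNReal.ofReal_mul (by positivity)]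
  simp

lemma inter_le {Ω : Type} [MeasurableSpace Ω] (μ : Measure Ω) {A B : Set Ω} {u v : ℝ≥0∞}
    (hA : μ A ≤ u ^ 2) (hB : μ B ≤ v ^ 2) : μ (A ∩ B) ≤ u * v := by
  rcases le_total u v with h | h
  · refine (measure_mono Set.inter_subset_left).trans (hA.trans ?_)
    rw [sq]
    gcongr
  · refine (measure_mono Set.inter_subset_right).trans (hB.trans ?_)
    rw [sq]
    gcongr

lemma far_sq {μ : Measure (V d → ℝ)} {K : ℝ} {x : V d} {k : ℕ}
    (h : μ {w | Far K w x k} ≤ ENNReal.ofReal (Real.exp (-(4 * k)))) :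
    μ {w | Far K w x k} ≤ ENNReal.ofReal (Real.exp (-(2 * k))) ^ 2 := by
  refine h.trans (le_of_eq ?_)
  rw [← ENNReal.ofReal_pow (Real.exp_pos _).le, ← Real.exp_nat_mul]
  congr 2
  push_cast
  ring

open scoped Classical in
/-- first moment on an event -/
lemma first {μ : Measure (V d → ℝ)} {K : ℝ} {x : V d}
    (hF : ∀ k, MeasurableSet {w : V d → ℝ | Far K w x k})
    (hT : ∀ k : ℕ, μ {w | Far K w x k} ≤ ENNReal.ofReal (Real.exp (-(4 * k))))
    {A : Set (V d → ℝ)} {u : ℝ≥0∞} (hu : μ A ≤ u ^ 2) :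
    ∫⁻ w in A, GG d K w x ∂μ ≤ u * SS d := by
  unfold GG SS
  rw [lintegral_tsum, ← ENNReal.tsum_mul_left]
  · apply ENNReal.tsum_le_tsum
    intro k
    have h1 : ∀ w : V d → ℝ, (if Far K w x k then ((2 * k + 7) ^ d : ℝ≥0∞) else 0) =
        Set.indicator {w | Far K w x k} (fun _ => ((2 * k + 7) ^ d : ℝ≥0∞)) w := by
      intro w
      simp [Set.indicator]
    simp_rw [h1]
    rw [lintegral_indicator (hF k), setLIntegral_const, Measure.restrict_apply (hF k),
      Set.inter_comm]
    calc _ ≤ ((2 * k + 7) ^ d : ℝ≥0∞) * (u * ENNReal.ofReal (Real.exp (-(2 * k)))) := by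
          gcongr
          exact inter_le μ hu (far_sq (hT k))
      _ = _ := by ring
  · intro k
    exact (Measurable.ite (hF k) measurable_const measurable_const).aemeasurable

open scoped Classical in
/-- mixed second moment -/
lemma second {μ : Measure (V d → ℝ)} {K : ℝ} {x y : V d}
    (hF : ∀ x k, MeasurableSet {w : V d → ℝ | Far K w x k})
    (hT : ∀ (x : V d) (k : ℕ), μ {w | Far K w x k} ≤ ENNReal.ofReal (Real.exp (-(4 * k)))) :
    ∫⁻ w, GG d K w x * GG d K w y ∂μ ≤ SS d * SS d := by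
  have h1 : ∀ w : V d → ℝ, GG d K w x * GG d K w y = ∑' k : ℕ,
      (if Far K w x k then ((2 * k + 7) ^ d : ℝ≥0∞) else 0) * GG d K w y := by
    intro w
    rw [ENNReal.tsum_mul_right]
    rfl
  have hG : Measurable fun w : V d → ℝ => GG d K w y := by
    unfold GG
    refine Measurable.tsum fun k => ?_
    exact Measurable.ite (hF y k) measurable_const measurable_const
  simp_rw [h1]
  rw [lintegral_tsum]
  · conv_rhs => rw [SS, ← ENNReal.tsum_mul_right]
    apply ENNReal.tsum_le_tsum
    intro k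
    have h2 : ∀ w : V d → ℝ, (if Far K w x k then ((2 * k + 7) ^ d : ℝ≥0∞) else 0) *
        GG d K w y = ((2 * k + 7) ^ d : ℝ≥0∞) *
        Set.indicator {w | Far K w x k} (fun w => GG d K w y) w := by
      intro w
      by_cases h : Far K w x k <;> simp [Set.indicator, h]
    simp_rw [h2]
    rw [lintegral_const_mul _ (hG.indicator (hF x k)), lintegral_indicator (hF x k), mul_assoc]
    gcongr
    exact first (hF y) (hT y) (far_sq (hT x k))
  · intro k
    exact ((Measurable.ite (hF x k) measurable_const measurable_const).mul hG).aemeasurable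

open scoped Classical in
/-- truncated version of `WW` -/
noncomputable def WT (i : Fin d) (L : ℕ) (B K C0 : ℝ) (h r : ℕ) (w : V d → ℝ) : ℝ≥0∞ :=
  ENNReal.ofReal (-(VV i L B h w)) +
    if YY w i L h (-(B * h)) then 0 else
      ENNReal.ofReal C0 * (8 * h + ∑ m ∈ Icc 1 h, GT r d K w (pt i m))

open scoped Classical in
lemma wt_dep (i : Fin d) (L : ℕ) (B K C0 : ℝ) (h r : ℕ) :
    DependsOn (WT i L B K C0 h r) {x | -(r : ℤ) ≤ x i ∧ x i ≤ h + r} := by
  intro w w' hw
  have hs : ∀ z ∈ {z : V d | 0 < z i ∧ z i ≤ h}, w z = w' z := by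
    intro z hz
    simp only [Set.mem_ofPred_eq] at hz
    apply hw z
    simp only [Set.mem_ofPred_eq]
    omega
  have h1 : VV i L B h w = VV i L B h w' := vv_dep i L B h hs
  have h2 : YY w i L h (-(B * h)) = YY w' i L h (-(B * h)) := yy_dep i L h _ hs
  have h3 : ∀ m ∈ Icc 1 h, GT r d K w (pt i m) = GT r d K w' (pt i m) := by
    intro m hm
    unfold GT
    refine Finset.sum_congr rfl fun k hk => ?_
    have : Far K w (pt i m) k = Far K w' (pt i m) k := by
      apply far_dep K (pt i m) k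
      intro z hz
      apply hw z
      have h4 := nm_le.1 hz i
      simp only [Pi.sub_apply, pt, Pi.single_eq_same] at h4
      simp only [Finset.mem_Icc, Finset.mem_range] at hm hk
      simp only [Set.mem_ofPred_eq]
      omega
    exact if_congr (iff_of_eq this) rfl rfl
  unfold WT
  rw [h1, Finset.sum_congr rfl h3]
  congr 1
  exact if_congr (iff_of_eq h2) rfl rfl

lemma gg_meas (hF : ∀ (K : ℝ) (x : V d) (k : ℕ), MeasurableSet {w : V d → ℝ | Far K w x k})
    (p : ℕ) (K : ℝ) (x : V d) : Measurable fun w : V d → ℝ => GG p K w x := by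
  unfold GG
  refine Measurable.tsum fun k => ?_
  exact Measurable.ite (hF K x k) measurable_const measurable_const

theorem ww (hT : S_TAIL) (hS : S_SUM) (hM : S_MEAS) : S_WW := by
  classical
  intro d i ν _ K B L hq hB hp C0 ε hC0 hε
  obtain ⟨-, -, hF, -, hYY, hVV, -⟩ := hM d
  have : IsProbabilityMeasure (law ν d) := by unfold law; infer_instance
  have hFar : ∀ (x : V d) (k : ℕ), law ν d {w | Far K w x k} ≤
    ENNReal.ofReal (Real.exp (-(4 * k))) := fun x k => (hT d ν K hq x k).1
  -- choice of `h0`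
  have hSt := SS_ne_top d
  set S' : ℝ := (SS d).toReal with hS'
  have hS0 : 0 ≤ S' := ENNReal.toReal_nonneg
  have hSe : SS d = ENNReal.ofReal S' := (ENNReal.ofReal_toReal hSt).symm
  have hlim : Tendsto (fun h : ℕ => C0 * √(law ν d {w | ¬ YY w i L h (-(B * h))}).toReal *
      (8 + S')) atTop (𝓝 0) := by
    have h1 : Tendsto (fun h : ℕ => (law ν d {w | ¬ YY w i L h (-(B * h))}).toReal) atTop
        (𝓝 0) := by
      have := (ENNReal.tendsto_toReal ENNReal.zero_ne_top).comp hp
      simpa [Function.comp_def] using this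
    have h2 := (Real.continuous_sqrt.tendsto 0).comp h1
    have h3 := (h2.const_mul C0).mul_const (8 + S')
    simpa using h3
  obtain ⟨h0, hh0⟩ := Filter.eventually_atTop.1
    (hlim.eventually_le_const (show (0 : ℝ) < ε / 2 by positivity))
  refine ⟨max h0 1, fun h hh => ?_⟩
  have h1 : 1 ≤ h := (le_max_right _ _).trans hh
  have hsmall := hh0 h ((le_max_left _ _).trans hh)
  have hpos : (0 : ℝ) < h := by positivity
  set A : Set (V d → ℝ) := {w | ¬ YY w i L h (-(B * h))} with hA
  set p : ℝ≥0∞ := law ν d A with hpdef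
  have hAm : MeasurableSet A := (hYY i L h (-(B * h))).compl
  have hptop : p ≠ ⊤ := measure_ne_top _ _
  set u : ℝ := √p.toReal with hu
  have hu0 : 0 ≤ u := Real.sqrt_nonneg _
  have hpu : law ν d A ≤ ENNReal.ofReal u ^ 2 := by
    rw [← ENNReal.ofReal_pow hu0, hu, Real.sq_sqrt ENNReal.toReal_nonneg,
      ENNReal.ofReal_toReal hptop]
  -- the expectation of `VV`
  have hVb : ∀ w, -(B * h) ≤ VV i L B h w ∧ VV i L B h w ≤ 0 := fun w => ⟨vv_ge hB, vv_le hB⟩
  have hVint : Integrable (VV i L B h) (law ν d) := by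
    refine Integrable.of_bound (hVV i L B h).aestronglyMeasurable (B * h)
      (Filter.Eventually.of_forall fun w => ?_)
    rw [Real.norm_eq_abs, abs_le]
    have := hVb w
    have : 0 ≤ B * h := by positivity
    constructor <;> linarith [(hVb w).1, (hVb w).2]
  have hEV : ∫⁻ w, ENNReal.ofReal (-(VV i L B h w)) ∂law ν d =
      ENNReal.ofReal (-(aa ν i L B h) * h) := by
    have h2 := ofReal_integral_eq_lintegral_ofReal hVint.neg
      (Filter.Eventually.of_forall fun w => by simpa using (hVb w).2)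
    simp only [Pi.neg_apply] at h2
    rw [← h2]
    congr 1
    rw [integral_neg]
    unfold aa
    field_simp
  have haa : 0 ≤ -(aa ν i L B h) * h := by
    have h2 : ∫ w, VV i L B h w ∂law ν d ≤ 0 := integral_nonpos fun w => (hVb w).2
    unfold aa
    have : -((∫ w, VV i L B h w ∂law ν d) / h) * h = - ∫ w, VV i L B h w ∂law ν d := by
      field_simp
    rw [this]
    linarith
  -- second moments
  have hGm := gg_meas hF
  have hTm := gt_meas hF
  set G : (V d → ℝ) → ℝ≥0∞ := fun w => ∑ m ∈ Icc 1 h, GG d K w (pt i m) with hG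
  have hGmeas : Measurable G := Finset.measurable_sum _ fun m _ => hGm d K _
  have hG2 : ∫⁻ w, G w ^ 2 ∂law ν d < ⊤ := by
    have h2 : ∀ w, G w ^ 2 = ∑ m ∈ Icc 1 h, ∑ m' ∈ Icc 1 h,
        GG d K w (pt i m) * GG d K w (pt i m') := by
      intro w
      rw [hG, sq, Finset.sum_mul_sum]
    simp_rw [h2]
    have hmm : ∀ m m' : ℕ, Measurable fun w : V d → ℝ =>
        GG d K w (pt i m) * GG d K w (pt i m') := fun m m' => (hGm d K _).mul (hGm d K _)
    rw [lintegral_finsetSum _ fun m _ => Finset.measurable_sum _ fun m' _ => hmm m m']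
    refine ENNReal.sum_lt_top.2 fun m _ => ?_
    rw [lintegral_finsetSum _ fun m' _ => hmm m m']
    refine ENNReal.sum_lt_top.2 fun m' _ => ?_
    refine (second (hF K) hFar).trans_lt ?_
    exact ENNReal.mul_lt_top hSt.lt_top hSt.lt_top
  set D : ℝ≥0∞ := ENNReal.ofReal (B * h) + ENNReal.ofReal C0 * (8 * h) with hD
  have hDt : D < ⊤ := by
    rw [hD]
    refine ENNReal.add_lt_top.2 ⟨ENNReal.ofReal_lt_top, ?_⟩
    refine ENNReal.mul_lt_top ENNReal.ofReal_lt_top ?_
    exact ENNReal.mul_lt_top (by norm_num) (by simp)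
  set M : ℝ≥0∞ := 4 * (D ^ 2 + ENNReal.ofReal C0 ^ 2 * ∫⁻ w, G w ^ 2 ∂law ν d) with hMdef
  have hMt : M ≠ ⊤ := by
    rw [hMdef]
    refine (ENNReal.mul_lt_top (by norm_num) (ENNReal.add_lt_top.2 ⟨?_, ?_⟩)).ne
    · exact ENNReal.pow_lt_top hDt
    · exact ENNReal.mul_lt_top (ENNReal.pow_lt_top ENNReal.ofReal_lt_top) hG2
  have hWle : ∀ r w, WT i L B K C0 h r w ≤ D + ENNReal.ofReal C0 * G w := by
    intro r w
    unfold WT
    have h2 : ENNReal.ofReal (-(VV i L B h w)) ≤ ENNReal.ofReal (B * h) := by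
      apply ENNReal.ofReal_le_ofReal
      linarith [(hVb w).1]
    have h3 : (if YY w i L h (-(B * h)) then 0 else
        ENNReal.ofReal C0 * (8 * h + ∑ m ∈ Icc 1 h, GT r d K w (pt i m))) ≤
        ENNReal.ofReal C0 * (8 * h + G w) := by
      split_ifs
      · exact zero_le
      · have h4 : ∑ m ∈ Icc 1 h, GT r d K w (pt i m) ≤ G w :=
          Finset.sum_le_sum fun m _ => gt_le _ _ _ _ _
        gcongr
    calc _ ≤ ENNReal.ofReal (B * h) + ENNReal.ofReal C0 * (8 * h + G w) := add_le_add h2 h3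
      _ = _ := by rw [hD]; ring
  have hsec : ∀ r, ∫⁻ w, (WT i L B K C0 h r w) ^ 2 ∂law ν d ≤ M := by
    intro r
    have h2 : ∀ w, (WT i L B K C0 h r w) ^ 2 ≤
        4 * (D ^ 2 + ENNReal.ofReal C0 ^ 2 * G w ^ 2) := by
      intro w
      have h3 : ∀ a b : ℝ≥0∞, (a + b) ^ 2 ≤ 4 * (a ^ 2 + b ^ 2) := by
        intro a b
        rcases le_total a b with hab | hab
        · calc (a + b) ^ 2 ≤ (b + b) ^ 2 := by gcongr
            _ = 4 * b ^ 2 := by ring
            _ ≤ _ := by gcongr; exact le_add_self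
        · calc (a + b) ^ 2 ≤ (a + a) ^ 2 := by gcongr
            _ = 4 * a ^ 2 := by ring
            _ ≤ _ := by gcongr; exact le_self_add
      calc _ ≤ (D + ENNReal.ofReal C0 * G w) ^ 2 := by gcongr; exact hWle r w
        _ ≤ _ := h3 _ _
        _ = _ := by rw [mul_pow]
    refine (lintegral_mono h2).trans (le_of_eq ?_)
    rw [lintegral_const_mul _ (by fun_prop), lintegral_add_left (by fun_prop),
      lintegral_const_mul _ (by fun_prop)]
    simp [hMdef]
  -- first moments
  have hfir : ∀ r, ∫⁻ w, WT i L B K C0 h r w ∂law ν d ≤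
      ENNReal.ofReal ((-(aa ν i L B h) + ε / 2) * h) := by
    intro r
    have h2 : ∀ w, WT i L B K C0 h r w ≤ ENNReal.ofReal (-(VV i L B h w)) +
        A.indicator (fun w => ENNReal.ofReal C0 * (8 * h + G w)) w := by
      intro w
      unfold WT
      gcongr
      by_cases hy : YY w i L h (-(B * h))
      · simp [hy]
      · have : w ∈ A := hy
        rw [if_neg hy, Set.indicator_of_mem this]
        have h4 : ∑ m ∈ Icc 1 h, GT r d K w (pt i m) ≤ G w :=
          Finset.sum_le_sum fun m _ => gt_le _ _ _ _ _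
        gcongr
    refine (lintegral_mono h2).trans ?_
    rw [lintegral_add_left (by fun_prop), hEV, lintegral_indicator hAm,
      lintegral_const_mul _ (by fun_prop), lintegral_add_left (by fun_prop),
      setLIntegral_const, hG, lintegral_finsetSum _ fun m _ => hGm d K _]
    have h3 : law ν d A ≤ ENNReal.ofReal u := by
      have := inter_le (law ν d) (A := A) (B := Set.univ) (u := ENNReal.ofReal u) (v := 1) hpu
        (by simp)
      simpa using this
    have h4 : ∑ m ∈ Icc 1 h, ∫⁻ w in A, GG d K w (pt i m) ∂law ν d ≤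
        h * (ENNReal.ofReal u * SS d) := by
      calc _ ≤ ∑ m ∈ Icc 1 h, ENNReal.ofReal u * SS d :=
            Finset.sum_le_sum fun m _ => first (hF K _) (hFar _) hpu
        _ = _ := by simp
    calc _ ≤ ENNReal.ofReal (-(aa ν i L B h) * h) + ENNReal.ofReal C0 *
          (8 * h * ENNReal.ofReal u + h * (ENNReal.ofReal u * SS d)) := by gcongr
      _ = ENNReal.ofReal (-(aa ν i L B h) * h) +
          ENNReal.ofReal (C0 * u * (8 + S') * h) := by
        congr 1
        rw [hSe, ENNReal.ofReal_mul (p := C0 * u * (8 + S')) (by positivity),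
          ENNReal.ofReal_mul (p := C0 * u) (by positivity),
          ENNReal.ofReal_mul hC0, ENNReal.ofReal_add (by norm_num) hS0]
        simp only [ENNReal.ofReal_natCast, ENNReal.ofReal_ofNat]
        ring
      _ = ENNReal.ofReal (-(aa ν i L B h) * h + C0 * u * (8 + S') * h) := by
        rw [ENNReal.ofReal_add haa (by positivity)]
      _ ≤ _ := by
        apply ENNReal.ofReal_le_ofReal
        nlinarith
  -- tails
  have htail : ∀ r : ℕ, law ν d {w | WW i L B K C0 h w ≠ WT i L B K C0 h r w} ≤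
      ENNReal.ofReal ((M.toReal + h) * Real.exp (-r)) := by
    intro r
    have h2 : {w : V d → ℝ | WW i L B K C0 h w ≠ WT i L B K C0 h r w} ⊆
        ⋃ m ∈ Icc 1 h, {w | Far K w (pt i m) r} := by
      intro w hw
      by_contra hcon
      apply hw
      simp only [Set.mem_iUnion, Set.mem_ofPred_eq, not_exists] at hcon
      unfold WW WT
      congr 1
      have : ∑ m ∈ Icc 1 h, GG d K w (pt i m) = ∑ m ∈ Icc 1 h, GT r d K w (pt i m) :=
        Finset.sum_congr rfl fun m hm => gt_eq (hcon m hm)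
      rw [this]
    calc _ ≤ law ν d (⋃ m ∈ Icc 1 h, {w | Far K w (pt i m) r}) := measure_mono h2
      _ ≤ ∑ m ∈ Icc 1 h, law ν d {w | Far K w (pt i m) r} := measure_biUnion_finset_le _ _
      _ ≤ ∑ m ∈ Icc 1 h, ENNReal.ofReal (Real.exp (-(4 * r))) :=
        Finset.sum_le_sum fun m _ => hFar _ _
      _ = ENNReal.ofReal (h * Real.exp (-(4 * r))) := by
        rw [ENNReal.ofReal_mul (by positivity)]
        simp
      _ ≤ _ := by
        apply ENNReal.ofReal_le_ofReal
        have h3 : Real.exp (-(4 * r)) ≤ Real.exp (-r) := by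
          apply Real.exp_le_exp.2
          have : (0 : ℝ) ≤ r := by positivity
          linarith
        have h4 : 0 ≤ M.toReal := ENNReal.toReal_nonneg
        calc (h : ℝ) * Real.exp (-(4 * r)) ≤ (M.toReal + h) * Real.exp (-(4 * r)) := by
              gcongr; linarith
          _ ≤ _ := by gcongr
  have hmeasW : Measurable (WW i L B K C0 h) := by
    unfold WW
    refine Measurable.add (hVV i L B h).neg.ennreal_ofReal ?_
    refine Measurable.ite (hYY i L h _) measurable_const ?_
    exact (measurable_const.add hGmeas).const_mul _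
  have hmeasT : ∀ r, Measurable (WT i L B K C0 h r) := by
    intro r
    unfold WT
    refine Measurable.add (hVV i L B h).neg.ennreal_ofReal ?_
    refine Measurable.ite (hYY i L h _) measurable_const ?_
    exact (measurable_const.add (Finset.measurable_sum _ fun m _ => hTm r d K _)).const_mul _
  have hM0 : 0 ≤ M.toReal := ENNReal.toReal_nonneg
  obtain ⟨C', hC'⟩ := hS d i ν h h1 (WW i L B K C0 h) (WT i L B K C0 h) (M.toReal + h)
    ((-(aa ν i L B h) + ε / 2) * h) hmeasW hmeasT (wt_dep i L B K C0 h) (by positivity)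
    (by nlinarith) htail
    (fun r => (hsec r).trans (by
      rw [ENNReal.ofReal_add hM0 hpos.le, ENNReal.ofReal_toReal hMt]
      exact le_self_add)) hfir (ε / 2 * h) (by positivity)
  refine ⟨C', fun m hm => ?_⟩
  have := hC' m hm
  convert this using 6
  ring

end Pool.Agent.W557.GP
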